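import Mathlib
import Pool.Agent.Work.MP_4545a8_an.Ex.Main1
import Pool.Agent.Work.MP_4545a8_an.Ex.MinPer

set_option autoImplicit false

/-!
# Common periodic points of commuting interval maps: reduction to exact pairs
-/

namespace Pool.Agent.Results.MP_4545a8_an.ExactReduction

open Set Function Topology
open Pool.Agent.MP4545 Pool.Agent.MP4545.Ex

/-- A self-map of `[0,1]` is topologically exact if every nonempty open set is mapped onto the whole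
interval by some iterate. -/
def Exact (T : Icc (0 : ℝ) 1 → Icc (0 : ℝ) 1) : Prop :=
  ∀ U : Set (Icc (0 : ℝ) 1), IsOpen U → U.Nonempty → ∃ n : ℕ, T^[n] '' U = univ

section aux

variable {a b : ℝ}

lemma noCommon_ext (hab : a ≤ b) {f g : Icc a b → Icc a b}
    (h : ¬ (periodicPts f ∩ periodicPts g).Nonempty) :
    NoCommon (ext hab f) (ext hab g) := by
  intro x n m hn hm h1 h2
  have hx : x ∈ Icc a b := by
    obtain ⟨k, rfl⟩ : ∃ k, n = k + 1 := ⟨n - 1, by omega⟩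
    rw [← h1, iterate_succ_apply']
    exact (f _).2
  apply h
  refine ⟨⟨x, hx⟩, ⟨n, hn, ?_⟩, ⟨m, hm, ?_⟩⟩
  · apply Subtype.ext
    rw [← ext_iter (hab := hab)]; exact h1
  · apply Subtype.ext
    rw [← ext_iter (hab := hab)]; exact h2

lemma val_ord {J : Set (Icc a b)} (hJ : OrdConnected J) :
    OrdConnected (Subtype.val '' J : Set ℝ) := by
  constructor
  rintro _ ⟨u, hu, rfl⟩ _ ⟨v, hv, rfl⟩ w hw
  have hwI : w ∈ Icc a b := ⟨u.2.1.trans hw.1, hw.2.trans v.2.2⟩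
  exact ⟨⟨w, hwI⟩, hJ.out hu hv ⟨hw.1, hw.2⟩, rfl⟩

lemma val_maps (hab : a ≤ b) {f : Icc a b → Icc a b} {J : Set (Icc a b)} {r : ℕ}
    (h : MapsTo f^[r] J J) : MapsTo (ext hab f)^[r] (Subtype.val '' J) (Subtype.val '' J) := by
  rintro _ ⟨u, hu, rfl⟩
  rw [ext_iter]
  exact mem_image_of_mem _ (h hu)

lemma exact_of {T : ℝ → ℝ} {T' : Icc (0 : ℝ) 1 → Icc (0 : ℝ) 1}
    (hT : ∀ t : Icc (0 : ℝ) 1, ((T' t : Icc (0 : ℝ) 1) : ℝ) = T t)
    (h : ∀ p q : ℝ, 0 ≤ p → p < q → q ≤ 1 →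
      ∃ N, ∀ n, N ≤ n → T^[n] '' Icc p q = Icc (0 : ℝ) 1) : Exact T' := by
  intro U hU hne
  obtain ⟨u, hu⟩ := hne
  obtain ⟨ε, hε, hball⟩ := Metric.isOpen_iff.1 hU u hu
  have h0 : (0 : ℝ) ≤ u := u.2.1
  have h1 : (u : ℝ) ≤ 1 := u.2.2
  obtain ⟨N, hN⟩ := h (max 0 ((u : ℝ) - ε / 2)) (min 1 ((u : ℝ) + ε / 2)) (le_max_left _ _)
    (max_lt (lt_min one_pos (by linarith)) (lt_min (by linarith) (by linarith)))
    (min_le_left _ _)
  refine ⟨N, eq_univ_of_forall fun y => ?_⟩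
  have hy : (y : ℝ) ∈ T^[N] '' Icc (max 0 ((u : ℝ) - ε / 2)) (min 1 ((u : ℝ) + ε / 2)) := by
    rw [hN N le_rfl]; exact y.2
  obtain ⟨w, hw, hwy⟩ := hy
  have hw1 := (le_max_right _ _).trans hw.1
  have hw2 := hw.2.trans (min_le_right _ _)
  have hw0 : w ∈ Icc (0 : ℝ) 1 :=
    ⟨(le_max_left _ _).trans hw.1, hw.2.trans (min_le_left _ _)⟩
  refine ⟨⟨w, hw0⟩, hball ?_, ?_⟩
  · rw [Metric.mem_ball, Subtype.dist_eq, Real.dist_eq, abs_lt]
    constructor <;> simp only <;> linarith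
  · apply Subtype.ext
    rw [← hwy]
    have hs : Function.Semiconj (Subtype.val : Icc (0 : ℝ) 1 → ℝ) T' T := fun t => hT t
    exact (hs.iterate_right N).eq ⟨w, hw0⟩

end aux

/-- **Structure theorem.** If `f, g` are commuting continuous self-maps of `[a,b]` without common
periodic point then there is a nondegenerate interval `[c,d]` with `f([c,d]) = g([c,d]) = [c,d]`,
contained in every closed interval which is mapped into itself by some `f^r` and some `g^s`,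
`r, s ≥ 1`, and containing all periodic points of all `f^k ∘ g^l`, `k, l ≥ 1`, and a continuous
monotone map `φ` of `[c,d]` onto `[0,1]` which semiconjugates `(f, g)` to a commuting pair `(F, G)`
without common periodic point such that all maps `F^k ∘ G^l`, `k, l ≥ 1`, are topologically
exact. -/
theorem result (a b : ℝ) (hab : a ≤ b) (f g : C(Icc a b, Icc a b))
    (hfg : ⇑f ∘ ⇑g = ⇑g ∘ ⇑f) (hno : ¬ (periodicPts ⇑f ∩ periodicPts ⇑g).Nonempty) :
    ∃ c d : Icc a b, c < d ∧ f '' Icc c d = Icc c d ∧ g '' Icc c d = Icc c d ∧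
      (∀ (J : Set (Icc a b)) (r s : ℕ), IsClosed J → OrdConnected J → J.Nonempty →
        0 < r → 0 < s → MapsTo f^[r] J J → MapsTo g^[s] J J → Icc c d ⊆ J) ∧
      (∀ k l : ℕ, 0 < k → 0 < l → periodicPts (f^[k] ∘ g^[l]) ⊆ Icc c d) ∧
      ∃ (F G : C(Icc (0 : ℝ) 1, Icc (0 : ℝ) 1)) (φ : C(Icc a b, Icc (0 : ℝ) 1)),
        Monotone φ ∧ φ c = 0 ∧ φ d = 1 ∧
        (∀ t ∈ Icc c d, F (φ t) = φ (f t) ∧ G (φ t) = φ (g t)) ∧
        ⇑F ∘ ⇑G = ⇑G ∘ ⇑F ∧ ¬ (periodicPts ⇑F ∩ periodicPts ⇑G).Nonempty ∧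
        ∀ k l : ℕ, 0 < k → 0 < l → Exact (F^[k] ∘ G^[l]) := by
  have hc : Function.Commute ⇑f ⇑g := fun x => congrFun hfg x
  have S := ext_sys (hab := hab) f.continuous g.continuous hc
  have hno' := noCommon_ext hab hno
  have hI0 : Inv (ext hab f) (ext hab g) a b (Icc a b) :=
    ⟨isClosed_Icc, ordConnected_Icc, ⟨a, le_rfl, hab⟩, Subset.rfl, fun x _ => S.rf x,
      fun x _ => S.rg x⟩
  obtain ⟨I, hI, -⟩ := exists_minInv S hI0
  obtain ⟨c, d, hcd, hIcd, hfI, hgI, F, G, φ, cφ, mφ, φc, φd, S', hnoF, hsemi, hex⟩ :=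
    main1 S hno' hI
  have hcI : c ∈ Icc a b := hI.sub (by rw [hIcd]; exact ⟨le_rfl, hcd.le⟩)
  have hdI : d ∈ Icc a b := hI.sub (by rw [hIcd]; exact ⟨hcd.le, le_rfl⟩)
  have himg : ∀ (w : Icc a b → Icc a b), ext hab w '' I = I →
      w '' Icc ⟨c, hcI⟩ ⟨d, hdI⟩ = Icc ⟨c, hcI⟩ ⟨d, hdI⟩ := by
    intro w hw
    ext y
    constructor
    · rintro ⟨x, hx, rfl⟩
      have : ext hab w (x : ℝ) ∈ I := by
        rw [← hw]
        exact mem_image_of_mem _ (by rw [hIcd]; exact ⟨hx.1, hx.2⟩)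
      rw [ext_val, hIcd] at this
      exact ⟨this.1, this.2⟩
    · intro hy
      have : (y : ℝ) ∈ ext hab w '' I := by
        rw [hw, hIcd]
        exact ⟨hy.1, hy.2⟩
      obtain ⟨x, hx, hxy⟩ := this
      rw [hIcd] at hx
      have hxI : x ∈ Icc a b := ⟨hcI.1.trans hx.1, hx.2.trans hdI.2⟩
      refine ⟨⟨x, hxI⟩, ⟨hx.1, hx.2⟩, Subtype.ext ?_⟩
      rw [← hxy]
      exact (ext_val (hab := hab) (φ := w) ⟨x, hxI⟩).symm
  refine ⟨⟨c, hcI⟩, ⟨d, hdI⟩, hcd, himg f hfI, himg g hgI, ?_, ?_, ?_⟩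
  · intro J r s hJ1 hJ2 hJ3 hr hs hJf hJg t ht
    have h1 : I ⊆ Subtype.val '' J := by
      refine min_per S hno' hI (isClosed_Icc.isClosedEmbedding_subtypeVal.isClosedMap _ hJ1)
        (val_ord hJ2) (hJ3.image _) ?_ hr hs (val_maps hab hJf) (val_maps hab hJg)
      rintro _ ⟨u, -, rfl⟩
      exact u.2
    have h2 : (t : ℝ) ∈ I := by rw [hIcd]; exact ⟨ht.1, ht.2⟩
    obtain ⟨u, hu, hut⟩ := h1 h2
    rwa [← Subtype.ext hut]
  · -- the periodic points of the words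
    intro k l hk hl z hz
    have hmf : MapsTo f^[1] (Icc (⟨c, hcI⟩ : Icc a b) ⟨d, hdI⟩) (Icc ⟨c, hcI⟩ ⟨d, hdI⟩) := by
      intro t ht
      rw [← himg f hfI]
      exact mem_image_of_mem _ ht
    have hmg : MapsTo g^[1] (Icc (⟨c, hcI⟩ : Icc a b) ⟨d, hdI⟩) (Icc ⟨c, hcI⟩ ⟨d, hdI⟩) := by
      intro t ht
      rw [← himg g hgI]
      exact mem_image_of_mem _ ht
    obtain ⟨n, hn, hzn⟩ := hz
    have hzn' : ((ext hab f)^[k] ∘ (ext hab g)^[l])^[n] (z : ℝ) = z := by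
      have hs : Function.Semiconj (Subtype.val : Icc a b → ℝ) (f^[k] ∘ g^[l])
          ((ext hab f)^[k] ∘ (ext hab g)^[l]) := fun t => by
        show ((f^[k] (g^[l] t) : Icc a b) : ℝ) = (ext hab f)^[k] ((ext hab g)^[l] (t : ℝ))
        rw [ext_iter, ext_iter]
      rw [← (hs.iterate_right n).eq z]
      exact congrArg Subtype.val hzn
    have h1 : (z : ℝ) ∈ (Subtype.val '' Icc (⟨c, hcI⟩ : Icc a b) ⟨d, hdI⟩ : Set ℝ) := by
      refine word_per S hno' (isClosed_Icc.isClosedEmbedding_subtypeVal.isClosedMap _ isClosed_Icc)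
        (val_ord ordConnected_Icc) ⟨c, ⟨c, hcI⟩, ⟨le_rfl, hcd.le⟩, rfl⟩ ?_ one_pos one_pos
        (val_maps hab hmf) (val_maps hab hmg) hk hl hn hzn'
      rintro _ ⟨u, -, rfl⟩
      exact u.2
    obtain ⟨u, hu, huz⟩ := h1
    rwa [← Subtype.ext huz]
  · -- the factor
    let F' : C(Icc (0 : ℝ) 1, Icc (0 : ℝ) 1) :=
      ⟨fun t => ⟨F t, S'.rf t⟩, (S'.cf.comp continuous_subtype_val).subtype_mk _⟩
    let G' : C(Icc (0 : ℝ) 1, Icc (0 : ℝ) 1) :=
      ⟨fun t => ⟨G t, S'.rg t⟩, (S'.cg.comp continuous_subtype_val).subtype_mk _⟩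
    let φ' : C(Icc a b, Icc (0 : ℝ) 1) :=
      ⟨fun t => projIcc 0 1 zero_le_one (φ t),
        continuous_projIcc.comp (cφ.comp continuous_subtype_val)⟩
    have hval : ∀ t : Icc a b, t ∈ Icc (⟨c, hcI⟩ : Icc a b) ⟨d, hdI⟩ →
        ((φ' t : Icc (0 : ℝ) 1) : ℝ) = φ t := by
      intro t ht
      have h1 : φ t ∈ Icc (0 : ℝ) 1 := ⟨by rw [← φc]; exact mφ ht.1, by rw [← φd]; exact mφ ht.2⟩
      show ((projIcc 0 1 zero_le_one (φ t) : Icc (0 : ℝ) 1) : ℝ) = φ t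
      rw [projIcc_of_mem zero_le_one h1]
    have hFs : Function.Semiconj (Subtype.val : Icc (0 : ℝ) 1 → ℝ) F' F := fun t => rfl
    have hGs : Function.Semiconj (Subtype.val : Icc (0 : ℝ) 1 → ℝ) G' G := fun t => rfl
    refine ⟨F', G', φ', ?_, ?_, ?_, ?_, ?_, ?_, ?_⟩
    · intro s t hst
      exact monotone_projIcc zero_le_one (mφ hst)
    · apply Subtype.ext
      rw [hval ⟨c, hcI⟩ ⟨le_rfl, hcd.le⟩]
      exact φc
    · apply Subtype.ext
      rw [hval ⟨d, hdI⟩ ⟨hcd.le, le_rfl⟩]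
      exact φd
    · intro t ht
      have ht' : (t : ℝ) ∈ Icc c d := ⟨ht.1, ht.2⟩
      have e1 : f t ∈ Icc (⟨c, hcI⟩ : Icc a b) ⟨d, hdI⟩ := by
        rw [← himg f hfI]; exact mem_image_of_mem _ ht
      have e2 : g t ∈ Icc (⟨c, hcI⟩ : Icc a b) ⟨d, hdI⟩ := by
        rw [← himg g hgI]; exact mem_image_of_mem _ ht
      constructor
      · apply Subtype.ext
        rw [hval _ e1]
        show F ((φ' t : Icc (0 : ℝ) 1) : ℝ) = φ (f t)
        rw [hval t ht, (hsemi t ht').1, ext_val]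
      · apply Subtype.ext
        rw [hval _ e2]
        show G ((φ' t : Icc (0 : ℝ) 1) : ℝ) = φ (g t)
        rw [hval t ht, (hsemi t ht').2, ext_val]
    · funext t
      apply Subtype.ext
      exact S'.comm t
    · rintro ⟨t, ⟨n, hn, h1⟩, ⟨m, hm, h2⟩⟩
      refine hnoF t n m hn hm ?_ ?_
      · rw [← (hFs.iterate_right n).eq t]
        exact congrArg Subtype.val h1
      · rw [← (hGs.iterate_right m).eq t]
        exact congrArg Subtype.val h2
    · intro k l hk hl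
      refine exact_of (T := F^[k] ∘ G^[l]) (fun t => ?_)
        (fun p q hp hpq hq => hex k l hk hl p q hp hpq hq)
      show ((F'^[k] (G'^[l] t) : Icc (0 : ℝ) 1) : ℝ) = F^[k] (G^[l] t)
      rw [(hFs.iterate_right k).eq, (hGs.iterate_right l).eq]

end Pool.Agent.Results.MP_4545a8_an.ExactReduction
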