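import Mathlib
import Pool.Agent.Work.MP_4545a8_an.Joint

set_option autoImplicit false

/-!
# Common periodic points of commuting interval maps: perfect sets and zero entropy

`f, g : [a,b] → [a,b]` continuous and commuting. Topological entropy (of a map on a subset) is
Mathlib's `Dynamics.coverEntropy`.
-/

namespace Pool.Agent.Results.MP_4545a8_an.PerfectSets

open Set Function Dynamics Topology Filter
open Pool.Agent.MP4545

variable {a b : ℝ}

lemma ext_word (hab : a ≤ b) (f g : Icc a b → Icc a b) (s t : ℕ) (x : Icc a b) :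
    ((ext hab f)^[s] ∘ (ext hab g)^[t]) (x : ℝ) = ((f^[s] ∘ g^[t]) x : Icc a b) := by
  simp only [comp_apply]
  rw [ext_iter, ext_iter]

/-- Let `f, g` be commuting continuous self-maps of `[a,b]` and let `A` be a nonempty closed set
with `f(A) ⊆ A` and `g(A) ⊆ A` (for instance the set of fixed points of some `f^i ∘ g^j`).
Suppose that every nonempty perfect subset of `A` meets an open set `U` on which some
`f^k ∘ g^l`, `(k,l) ≠ (0,0)`, has topological entropy zero. Then `f` and `g` have a common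
periodic point. -/
theorem result (a b : ℝ) (hab : a ≤ b) (f g : C(Icc a b, Icc a b)) (hfg : ⇑f ∘ ⇑g = ⇑g ∘ ⇑f)
    (A : Set (Icc a b)) (hA : IsClosed A) (hne : A.Nonempty) (hfA : MapsTo f A A)
    (hgA : MapsTo g A A)
    (H : ∀ M : Set (Icc a b), M ⊆ A → Perfect M → M.Nonempty →
      ∃ U : Set (Icc a b), IsOpen U ∧ (U ∩ M).Nonempty ∧
        ∃ k l : ℕ, (k, l) ≠ (0, 0) ∧ coverEntropy (f^[k] ∘ g^[l]) U = 0) :
    (periodicPts ⇑f ∩ periodicPts ⇑g).Nonempty := by
  have hc : Function.Commute ⇑f ⇑g := fun x => congrFun hfg x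
  have S := ext_sys (hab := hab) f.continuous g.continuous hc
  have hA' : IsClosed (Subtype.val '' A : Set ℝ) :=
    isClosed_Icc.isClosedEmbedding_subtypeVal.isClosedMap _ hA
  obtain ⟨x, hx, ⟨n, hn, e1⟩, ⟨m, hm, e2⟩⟩ := perfect_joint S (ext_uc f.continuous)
    (ext_uc g.continuous) hA' (hne.image _) (by rintro _ ⟨x, -, rfl⟩; exact x.2)
    (by rintro _ ⟨x, hx, rfl⟩; rw [ext_val]; exact ⟨_, hfA hx, rfl⟩)
    (by rintro _ ⟨x, hx, rfl⟩; rw [ext_val]; exact ⟨_, hgA hx, rfl⟩) (by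
      intro M hMA hM hMne
      have hMab : M ⊆ Icc a b := hMA.trans (by rintro _ ⟨x, -, rfl⟩; exact x.2)
      have hperf : Perfect ((Subtype.val : Icc a b → ℝ) ⁻¹' M) := by
        refine ⟨hM.closed.preimage continuous_subtype_val, ?_⟩
        rw [preperfect_iff_nhds]
        intro x hx U hU
        obtain ⟨ε, hε, hεU⟩ := Metric.mem_nhds_iff.1 hU
        obtain ⟨y, hy, hyx⟩ := preperfect_iff_nhds.1 hM.acc (x : ℝ) hx _
          (Metric.ball_mem_nhds (x : ℝ) hε)
        refine ⟨⟨y, hMab hy.2⟩, ⟨hεU hy.1, hy.2⟩, ?_⟩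
        intro h
        exact hyx (congrArg Subtype.val h)
      obtain ⟨U, hUo, ⟨m, hmU, hmM⟩, k, l, hkl, h0⟩ := H _ (by
        intro x hx
        obtain ⟨y, hy, hyx⟩ := hMA hx
        have : y = x := Subtype.ext hyx
        rwa [← this]) hperf (by
        obtain ⟨x, hx⟩ := hMne
        exact ⟨⟨x, hMab hx⟩, hx⟩)
      obtain ⟨ε, hε, hεU⟩ := Metric.mem_nhds_iff.1 (hUo.mem_nhds hmU)
      refine ⟨(m : ℝ) - ε / 2, m + ε / 2, ⟨m, ⟨by linarith, by linarith⟩, hmM⟩, k, l, hkl, ?_⟩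
      have hsemi : Semiconj (Subtype.val : Icc a b → ℝ) ((⇑f)^[k] ∘ (⇑g)^[l])
          ((ext hab f)^[k] ∘ (ext hab g)^[l]) := fun x => (ext_word hab f g k l x).symm
      have he := coverEntropy_image_of_comap (inferInstance : UniformSpace ℝ) hsemi U
      have hU0 : coverEntropy ((ext hab f)^[k] ∘ (ext hab g)^[l]) (Subtype.val '' U) = 0 := by
        rw [he]; exact h0
      rw [← hU0]
      refine coverEntropy_monotone _ ?_
      intro z hz
      refine ⟨⟨z, hz.2⟩, hεU ?_, rfl⟩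
      rw [Metric.mem_ball, Subtype.dist_eq, Real.dist_eq, abs_lt]
      exact ⟨by linarith [hz.1.1], by linarith [hz.1.2]⟩)
  refine ⟨⟨x, hx⟩, ⟨n, hn, ?_⟩, ⟨m, hm, ?_⟩⟩
  · apply Subtype.ext
    rw [← ext_iter (hab := hab)]; exact e1
  · apply Subtype.ext
    rw [← ext_iter (hab := hab)]; exact e2

end Pool.Agent.Results.MP_4545a8_an.PerfectSets
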