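import Mathlib
import Pool.Agent.Work.MP_4545a8_an.SC.Cor

set_option autoImplicit false

/-!
# Common periodic points of commuting interval maps: minimal sets of sign changes

`f, g : [a,b] → [a,b]` continuous and commuting, `h = f^k ∘ g^l` with `(k, l) ≠ (0, 0)`. If
`k, l ≥ 1` then the set of sign changes of `h - id` is closed and invariant under `f` and `g`, and
only the minimal sets of sign changes matter.
-/

namespace Pool.Agent.Results.MP_4545a8_an.SignChanges

open Set Function Topology Filter Dynamics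
open Pool.Agent.MP4545 Pool.Agent.MP4545.OM Pool.Agent.MP4545.SC

/-- `z` is a sign change of `h - id`: every neighbourhood of `z` in `[a,b]` contains points `s`, `t`
with `s < h(s)` and `h(t) < t`. -/
def IsSignChange {a b : ℝ} (h : Icc a b → Icc a b) (z : Icc a b) : Prop :=
  ∀ δ > 0, (∃ s : Icc a b, |(s : ℝ) - z| < δ ∧ s < h s) ∧
    ∃ t : Icc a b, |(t : ℝ) - z| < δ ∧ h t < t

/-- `h` is differentiable at `z` (relative to `[a,b]`), or `z` is isolated in the fibre `h⁻¹(z)`. -/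
def IsTame {a b : ℝ} (hab : a ≤ b) (h : Icc a b → Icc a b) (z : Icc a b) : Prop :=
  DifferentiableWithinAt ℝ (IccExtend hab fun x : Icc a b => ((h x : Icc a b) : ℝ)) (Icc a b) z ∨
    ∃ δ > 0, ∀ u : Icc a b, |(u : ℝ) - z| < δ → h u = z → u = z

variable {a b : ℝ}

lemma word_ext (hab : a ≤ b) (f g : Icc a b → Icc a b) (s t : ℕ) (x : Icc a b) :
    (ext hab f)^[s] ((ext hab g)^[t] (x : ℝ)) = (f^[s] (g^[t] x) : Icc a b) := by
  rw [ext_iter, ext_iter]

lemma word_iter_ext (hab : a ≤ b) (f g : Icc a b → Icc a b) (s t j : ℕ) (x : Icc a b) :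
    ((ext hab f)^[s] ∘ (ext hab g)^[t])^[j] (x : ℝ) = ((f^[s] ∘ g^[t])^[j] x : Icc a b) := by
  induction j with
  | zero => rfl
  | succ j ih =>
    rw [iterate_succ_apply', iterate_succ_apply', ih]
    exact word_ext hab f g s t _

/-- Points of a perfect set of sign changes of the extended word are sign changes in `[a,b]`. -/
lemma sign_of_sch (hab : a ≤ b) (f g : Icc a b → Icc a b) (k l : ℕ) {M : Set ℝ}
    (hMab : M ⊆ Icc a b) (hM : Perfect M)
    (hsc : M ⊆ SCh ((ext hab f)^[k] ∘ (ext hab g)^[l])) (z : Icc a b) (hz : (z : ℝ) ∈ M) :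
    IsSignChange (f^[k] ∘ g^[l]) z := by
  intro δ hδ
  -- a point of `M` in the open interval, close to `z`
  obtain ⟨w, hwM, hwa, hwb, hwz⟩ : ∃ w ∈ M, a < w ∧ w < b ∧ |w - z| < δ / 2 := by
    obtain ⟨t, htM, ht1, ht2⟩ := exists_two hM (O := Ioo ((z : ℝ) - δ / 2) (z + δ / 2)) isOpen_Ioo
      ⟨z, ⟨by linarith, by linarith⟩, hz⟩
    obtain ⟨m1, hm1, hm1', -⟩ := ht1 1 one_pos
    obtain ⟨m2, hm2, -, hm2'⟩ := ht2 1 one_pos
    refine ⟨t, htM.2, ?_, ?_, ?_⟩
    · exact (hMab hm2).1.trans_lt hm2'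
    · exact hm1'.trans_le (hMab hm1).2
    · rw [abs_lt]
      exact ⟨by linarith [htM.1.1], by linarith [htM.1.2]⟩
  set ρ : ℝ := min (δ / 2) (min (w - a) (b - w)) with hρ
  have hρ0 : 0 < ρ := lt_min (by positivity) (lt_min (by linarith) (by linarith))
  have hρ1 : ρ ≤ δ / 2 := min_le_left _ _
  have hρ2 : ρ ≤ w - a := (min_le_right _ _).trans (min_le_left _ _)
  have hρ3 : ρ ≤ b - w := (min_le_right _ _).trans (min_le_right _ _)
  have hin : ∀ s : ℝ, |s - w| < ρ → s ∈ Icc a b ∧ |s - z| < δ := by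
    intro s hs
    rw [abs_lt] at hs hwz ⊢
    refine ⟨⟨by linarith [hs.1], by linarith [hs.2]⟩, by linarith [hs.1, hwz.1],
      by linarith [hs.2, hwz.2]⟩
  obtain ⟨⟨s, hs, hs'⟩, t, ht, ht'⟩ := hsc hwM ρ hρ0
  obtain ⟨hsI, hsz⟩ := hin s hs
  obtain ⟨htI, htz⟩ := hin t ht
  refine ⟨⟨⟨s, hsI⟩, hsz, ?_⟩, ⟨t, htI⟩, htz, ?_⟩
  · have h1 := word_ext hab f g k l ⟨s, hsI⟩
    simp only [comp_apply] at hs'
    simp only at h1
    rw [h1] at hs'
    exact hs'
  · have h1 := word_ext hab f g k l ⟨t, htI⟩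
    simp only [comp_apply] at ht'
    simp only at h1
    rw [h1] at ht'
    exact ht'

lemma perfect_pre {M : Set ℝ} (hMab : M ⊆ Icc a b) (hM : Perfect M) :
    Perfect ((Subtype.val : Icc a b → ℝ) ⁻¹' M) := by
  refine ⟨hM.closed.preimage continuous_subtype_val, ?_⟩
  rw [preperfect_iff_nhds]
  intro x hx U hU
  obtain ⟨ε, hε, hεU⟩ := Metric.mem_nhds_iff.1 hU
  obtain ⟨y, hy, hyx⟩ := preperfect_iff_nhds.1 hM.acc (x : ℝ) hx _
    (Metric.ball_mem_nhds (x : ℝ) hε)
  refine ⟨⟨y, hMab hy.2⟩, ⟨hεU hy.1, hy.2⟩, ?_⟩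
  intro h
  exact hyx (congrArg Subtype.val h)

lemma image_pre (hab : a ≤ b) (w : Icc a b → Icc a b) {M : Set ℝ} (hMab : M ⊆ Icc a b)
    (hwM : ext hab w '' M = M) :
    w '' ((Subtype.val : Icc a b → ℝ) ⁻¹' M) = (Subtype.val : Icc a b → ℝ) ⁻¹' M := by
  ext y
  constructor
  · rintro ⟨x, hx, rfl⟩
    show ((w x : Icc a b) : ℝ) ∈ M
    rw [← ext_val (hab := hab), ← hwM]
    exact mem_image_of_mem _ hx
  · intro hy
    have hy' : (y : ℝ) ∈ ext hab w '' M := by rw [hwM]; exact hy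
    obtain ⟨x, hx, hxy⟩ := hy'
    refine ⟨⟨x, hMab hx⟩, hx, Subtype.ext ?_⟩
    rw [← hxy, ← ext_val (hab := hab)]

/-- Part (1) of the theorem. -/
lemma criterion (a b : ℝ) (hab : a ≤ b) (f g : C(Icc a b, Icc a b)) (hfg : ⇑f ∘ ⇑g = ⇑g ∘ ⇑f)
    (k l : ℕ) (hkl : 0 < k + l)
    (H : ∀ M : Set (Icc a b), (∀ z ∈ M, f^[k] (g^[l] z) = z) →
        (0 < k → 0 < l → ∀ z ∈ M, IsSignChange (f^[k] ∘ g^[l]) z) → Perfect M → M.Nonempty →
        f '' M = M → g '' M = M →
        (∀ C ⊆ M, IsClosed C → C.Nonempty → MapsTo f C C → MapsTo g C C → C = M) →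
        ¬ {z | z ∈ M ∧ IsTame hab (f^[k] ∘ g^[l]) z}.Countable ∨
        (∃ (x y : Icc a b) (j : ℕ), 0 < j ∧ MapsTo (f^[k] ∘ g^[l])^[j] (Icc x y) (Icc x y) ∧
          (M ∩ Ioo x y).Nonempty ∧ ¬ M ⊆ Icc x y) ∨
        ∃ U : Set (Icc a b), IsOpen U ∧ (U ∩ M).Nonempty ∧
          ∃ i j : ℕ, (i, j) ≠ (0, 0) ∧ coverEntropy (f^[i] ∘ g^[j]) U = 0) :
    (periodicPts ⇑f ∩ periodicPts ⇑g).Nonempty := by
  have hc : Function.Commute ⇑f ⇑g := fun x => congrFun hfg x
  have S := ext_sys (hab := hab) f.continuous g.continuous hc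
  have hw := word_ext hab f g
  obtain ⟨x, hx, ⟨n, hn, e1⟩, ⟨m, hm, e2⟩⟩ := comb S (ext_uc f.continuous)
    (ext_uc g.continuous) hkl (by
      intro M hMab hM hMne hMfix hMs hfM hgM hmin
      rcases H ((Subtype.val : Icc a b → ℝ) ⁻¹' M) (by
          intro z hz
          apply Subtype.ext
          rw [← hw]
          exact hMfix _ hz) (fun hk hl z hz => sign_of_sch hab f g k l hMab hM (hMs hk hl) z hz)
        (perfect_pre hMab hM) (by
          obtain ⟨x, hx⟩ := hMne
          exact ⟨⟨x, hMab hx⟩, hx⟩)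
        (image_pre hab f hMab hfM) (image_pre hab g hMab hgM) (by
          intro C hCM hC hCne hCf hCg
          have h1 : Subtype.val '' C = M := by
            apply hmin
            · rintro _ ⟨x, hx, rfl⟩
              exact hCM hx
            · exact isClosed_Icc.isClosedEmbedding_subtypeVal.isClosedMap _ hC
            · exact hCne.image _
            · rintro _ ⟨x, hx, rfl⟩
              rw [ext_val]
              exact mem_image_of_mem _ (hCf hx)
            · rintro _ ⟨x, hx, rfl⟩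
              rw [ext_val]
              exact mem_image_of_mem _ (hCg hx)
          rw [← h1]
          exact (preimage_image_eq _ Subtype.val_injective).symm) with h | h | h
      · left
        intro hcount
        apply h
        refine (hcount.preimage (Subtype.val_injective (p := fun x => x ∈ Icc a b))).mono ?_
        rintro z ⟨hzM, hz⟩
        refine ⟨hzM, ?_⟩
        rcases hz with h | ⟨δ, hδ, h⟩
        · left
          refine h.congr ?_ ?_
          · intro x hx
            rw [IccExtend_of_mem hab _ hx]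
            exact hw k l ⟨x, hx⟩
          · rw [IccExtend_of_mem hab _ z.2]
            exact hw k l z
        · right
          refine ⟨δ, hδ, ?_⟩
          intro u hu hd hfu
          have := h ⟨u, hu⟩ hd (by
            apply Subtype.ext
            show ((f^[k] (g^[l] ⟨u, hu⟩) : Icc a b) : ℝ) = z
            rw [← hw]; exact hfu)
          exact congrArg Subtype.val this
      · right; left
        obtain ⟨x, y, j, hj, hmap, ⟨w, hwM, hw'⟩, hnot⟩ := h
        refine ⟨x, y, j, hj, ?_, ⟨w, hwM, hw'.1, hw'.2⟩, ?_⟩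
        · rintro u ⟨hu, huab⟩
          have h1 : (⟨u, huab⟩ : Icc a b) ∈ Icc x y := ⟨hu.1, hu.2⟩
          have h2 := hmap h1
          have h3 := word_iter_ext hab f g k l j ⟨u, huab⟩
          simp only at h3
          rw [h3]
          exact ⟨h2.1, h2.2⟩
        · intro hsub
          apply hnot
          intro u hu
          have := hsub hu
          exact ⟨this.1, this.2⟩
      · right; right
        obtain ⟨U, hUo, ⟨m, hmU, hmM⟩, i, j, hij, h0⟩ := h
        obtain ⟨ε, hε, hεU⟩ := Metric.mem_nhds_iff.1 (hUo.mem_nhds hmU)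
        refine ⟨(m : ℝ) - ε / 2, m + ε / 2, ⟨m, ⟨by linarith, by linarith⟩, hmM⟩, i, j, hij, ?_⟩
        have hsemi : Semiconj (Subtype.val : Icc a b → ℝ) ((⇑f)^[i] ∘ (⇑g)^[j])
            ((ext hab f)^[i] ∘ (ext hab g)^[j]) := fun x => (hw i j x).symm
        have he := coverEntropy_image_of_comap (inferInstance : UniformSpace ℝ) hsemi U
        have hU0 : coverEntropy ((ext hab f)^[i] ∘ (ext hab g)^[j]) (Subtype.val '' U) = 0 := by
          rw [he]; exact h0
        rw [← hU0]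
        refine coverEntropy_monotone _ ?_
        intro z hz
        refine ⟨⟨z, hz.2⟩, hεU ?_, rfl⟩
        rw [Metric.mem_ball, Subtype.dist_eq, Real.dist_eq, abs_lt]
        exact ⟨by linarith [hz.1.1], by linarith [hz.1.2]⟩)
  refine ⟨⟨x, hx⟩, ⟨n, hn, ?_⟩, ⟨m, hm, ?_⟩⟩
  · apply Subtype.ext
    rw [← ext_iter (hab := hab)]; exact e1
  · apply Subtype.ext
    rw [← ext_iter (hab := hab)]; exact e2

/-- Let `f, g` be commuting continuous self-maps of `[a,b]` and `h = f^k ∘ g^l`, `(k, l) ≠ (0, 0)`.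

(1) Suppose that for every infinite minimal set `M` of the pair `f, g` which consists of fixed points
of `h` (of sign changes of `h - id`, if `k, l ≥ 1`) one of the following holds: (a) uncountably many
points of `M` are tame for `h`; (b) `h^j([x,y]) ⊆ [x,y]` for some `x, y ∈ [a,b]`, `j ≥ 1` such
that `M` meets `(x,y)` and is not contained in `[x,y]`; (c) `M` meets an open set on which some
`f^i ∘ g^j`, `(i, j) ≠ (0, 0)`, has entropy zero. Then `f` and `g` have a common periodic point.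

(2) The same holds if all but countably many fixed points of `h` (sign changes of `h - id`, if
`k, l ≥ 1`) are tame for `h`; in particular if `k, l ≥ 1` and `h - id` has only countably many sign
changes. -/
theorem result (a b : ℝ) (hab : a ≤ b) (f g : C(Icc a b, Icc a b)) (hfg : ⇑f ∘ ⇑g = ⇑g ∘ ⇑f)
    (k l : ℕ) (hkl : 0 < k + l) :
    ((∀ M : Set (Icc a b), (∀ z ∈ M, f^[k] (g^[l] z) = z) →
        (0 < k → 0 < l → ∀ z ∈ M, IsSignChange (f^[k] ∘ g^[l]) z) → Perfect M → M.Nonempty →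
        f '' M = M → g '' M = M →
        (∀ C ⊆ M, IsClosed C → C.Nonempty → MapsTo f C C → MapsTo g C C → C = M) →
        ¬ {z | z ∈ M ∧ IsTame hab (f^[k] ∘ g^[l]) z}.Countable ∨
        (∃ (x y : Icc a b) (j : ℕ), 0 < j ∧ MapsTo (f^[k] ∘ g^[l])^[j] (Icc x y) (Icc x y) ∧
          (M ∩ Ioo x y).Nonempty ∧ ¬ M ⊆ Icc x y) ∨
        ∃ U : Set (Icc a b), IsOpen U ∧ (U ∩ M).Nonempty ∧
          ∃ i j : ℕ, (i, j) ≠ (0, 0) ∧ coverEntropy (f^[i] ∘ g^[j]) U = 0) →
      (periodicPts ⇑f ∩ periodicPts ⇑g).Nonempty) ∧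
    ({z : Icc a b | f^[k] (g^[l] z) = z ∧
        (0 < k → 0 < l → IsSignChange (f^[k] ∘ g^[l]) z) ∧
        ¬ IsTame hab (f^[k] ∘ g^[l]) z}.Countable →
      (periodicPts ⇑f ∩ periodicPts ⇑g).Nonempty) := by
  refine ⟨criterion a b hab f g hfg k l hkl, ?_⟩
  intro H
  apply criterion a b hab f g hfg k l hkl
  intro M hfix hsc hM hMne _ _ _
  left
  intro hcount
  have hMunc : ¬ M.Countable := by
    intro hMc
    have h1 : Perfect (Subtype.val '' M : Set ℝ) := by
      refine ⟨isClosed_Icc.isClosedEmbedding_subtypeVal.isClosedMap _ hM.closed, ?_⟩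
      rw [preperfect_iff_nhds]
      rintro _ ⟨x, hx, rfl⟩ U hU
      obtain ⟨y, hy, hyx⟩ := preperfect_iff_nhds.1 hM.acc x hx _
        (continuous_subtype_val.continuousAt hU)
      exact ⟨y, ⟨hy.1, mem_image_of_mem _ hy.2⟩, fun h => hyx (Subtype.ext h)⟩
    have h2 := open_uncountable h1 isOpen_univ (by
      rw [univ_inter]; exact hMne.image _)
    apply h2
    rw [univ_inter]
    exact hMc.image _
  apply hMunc
  refine (hcount.union H).mono ?_
  intro z hz
  by_cases ht : IsTame hab (f^[k] ∘ g^[l]) z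
  · exact Or.inl ⟨hz, ht⟩
  · exact Or.inr ⟨hfix z hz, fun hk hl => hsc hk hl z hz, ht⟩

end Pool.Agent.Results.MP_4545a8_an.SignChanges
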