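import Mathlib
import Pool.Agent.Work.MP_4545a8_an.ST.Main

set_option autoImplicit false

/-!
# Commuting interval maps: a `C⁰`-open condition for a common periodic point

`f, g : [a,b] → [a,b]` continuous and commuting. `IsZone α β p q` (see `ST/Defs`) means that
`α(p) < p < q < α(q)`, that `β` maps the fixed points of `α` in `[p,q]` into `(p,q)`, and that
`β(t)` does not lie between two fixed points of `α` in `[p,q]` if `t` is `p` or `q` or a point of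
`α([p,q])` outside `(p,q)`.
-/

namespace Pool.Agent.Results.MP_4545a8_an.Stability

open Set Function Polynomial
open Pool.Agent.MP4545.ST

/-- (1) Let `f₀, g₀` be continuous self-maps of `[a,b]` such that two words `f₀^k g₀^l`,
`f₀^i g₀^j` with `k j ≠ l i` have a zone `[p,q]`. Then there is `ε > 0` such that for all commuting
continuous `f, g` with `|f - f₀| < ε` and `|g - g₀| < ε` some `x ∈ [p,q]` is fixed by `f^k g^l` and
by `(f^i g^j)²`, and is periodic for `f` and for `g`.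

(2) Let `f₀, g₀` commute, and suppose that for some `k, l ≥ 1` the map `w = f₀^k g₀^l` has only
finitely many fixed points, that each of them has only finitely many preimages under `f₀`, and that
`w(p) < p < q < w(q)` for some `p, q`. Then there is `ε > 0` such that all commuting continuous
`f, g` with `|f - f₀| < ε` and `|g - g₀| < ε` have a common periodic point.

(3) For example this holds near the Chebyshev polynomials `T_m, T_n` on `[-1,1]`, `m, n ≥ 2`. -/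
theorem result :
    (∀ (a b : ℝ) (f₀ g₀ : C(Icc a b, Icc a b)) (k l i j : ℕ) (p q : Icc a b), k * j ≠ l * i →
      IsZone (f₀^[k] ∘ g₀^[l]) (f₀^[i] ∘ g₀^[j]) p q →
      ∃ ε > 0, ∀ f g : C(Icc a b, Icc a b), ⇑f ∘ ⇑g = ⇑g ∘ ⇑f →
        (∀ x, |(f x : ℝ) - f₀ x| < ε) → (∀ x, |(g x : ℝ) - g₀ x| < ε) →
        ∃ x ∈ Icc p q, f^[k] (g^[l] x) = x ∧ (f^[i] ∘ g^[j])^[2] x = x ∧
          x ∈ periodicPts ⇑f ∩ periodicPts ⇑g) ∧
    (∀ (a b : ℝ) (f₀ g₀ : C(Icc a b, Icc a b)) (k l : ℕ), ⇑f₀ ∘ ⇑g₀ = ⇑g₀ ∘ ⇑f₀ →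
      0 < k → 0 < l → {x | f₀^[k] (g₀^[l] x) = x}.Finite →
      (∀ y, f₀^[k] (g₀^[l] y) = y → (⇑f₀ ⁻¹' {y}).Finite) →
      (∃ p q : Icc a b, p < q ∧ f₀^[k] (g₀^[l] p) < p ∧ q < f₀^[k] (g₀^[l] q)) →
      ∃ ε > 0, ∀ f g : C(Icc a b, Icc a b), ⇑f ∘ ⇑g = ⇑g ∘ ⇑f →
        (∀ x, |(f x : ℝ) - f₀ x| < ε) → (∀ x, |(g x : ℝ) - g₀ x| < ε) →
        (periodicPts ⇑f ∩ periodicPts ⇑g).Nonempty) ∧
    (∀ m n : ℕ, 2 ≤ m → 2 ≤ n →
      ∃ ε > 0, ∀ f g : C(Icc (-1 : ℝ) 1, Icc (-1 : ℝ) 1), ⇑f ∘ ⇑g = ⇑g ∘ ⇑f →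
        (∀ x, |(f x : ℝ) - (Chebyshev.T ℝ m).eval (x : ℝ)| < ε) →
        (∀ x, |(g x : ℝ) - (Chebyshev.T ℝ n).eval (x : ℝ)| < ε) →
        (periodicPts ⇑f ∩ periodicPts ⇑g).Nonempty) := by
  refine ⟨?_, ?_, chebyshev⟩
  · intro a b f₀ g₀ k l i j p q hdet hz
    exact stability f₀ g₀ hdet hz
  · intro a b f₀ g₀ k l hfg hk hl hfin hfib hex
    exact finitePair f₀ g₀ hfg hk hl hfin hfib hex

end Pool.Agent.Results.MP_4545a8_an.Stability
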